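import Pool.Agent.Lib.MP_320227_al.WMain

/-!
Bousfield-local objects as a least colocalizing coideal. `T` is a rigidly-compactly generated
tensor-triangulated category and `L a` is any family of minimal localizing ideals, each containing
a nonzero weak ring. No spectrum, no stratification and no local-to-global principle is assumed.
-/

open CategoryTheory CategoryTheory.Limits CategoryTheory.MonoidalCategory

universe w v u

namespace Pool.Agent.Results.MP_320227_al.LocalObjects

open Pool.Agent.Lib.MP_320227_al

theorem result {T : Type u} [Category.{v} T] [Preadditive T] [HasZeroObject T] [HasShift T ℤ]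
    [∀ n : ℤ, (shiftFunctor T n).Additive] [Pretriangulated T] [IsTriangulated T]
    [HasCoproducts.{v} T] [MonoidalCategory T] [SymmetricCategory T] [MonoidalClosed T]
    [MonoidalPreadditive T] [∀ X : T, (tensorLeft X).CommShift ℤ]
    [∀ X : T, (tensorLeft X).IsTriangulated]
    (hT : IsRigidlyCompactlyGenerated T) {A : Type w} (L : A → Set T)
    (hL : ∀ a, IsMinimalIdeal (L a)) (hr : ∀ a, ∃ r ∈ L a, ¬ IsZero r ∧ IsWeakRing r) :
    IsLeast {C : Set T | IsColocalizingCoideal C ∧
        ∀ a, ∃ s ∈ L a, ∃ t ∈ C, ∃ f : s ⟶ t, f ≠ 0}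
      {Z : T | ∀ w : T, (∀ a, ∀ s ∈ L a, IsZero (s ⊗ w)) → ∀ f : w ⟶ Z, f = 0} :=
  local_objects hT L hL hr

end Pool.Agent.Results.MP_320227_al.LocalObjects
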