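import Pool.Agent.Lib.MP_320227_al.Main

/-!
Stratification implies costratification. `T` is a rigidly-compactly generated tensor-triangulated
category with weakly noetherian spectrum, and `g P` is the object `e_Y ⊗ f_Z` attached to the
point `P`, for any choice of the Thomason subsets and of the idempotent triangles. Such a family
`g` always exists: see `main_result` in the imported file.
-/

open CategoryTheory CategoryTheory.Limits CategoryTheory.MonoidalCategory

universe v u

namespace Pool.Agent.Results.MP_320227_al.StratImpliesCostrat

open Pool.Agent.Lib.MP_320227_al

theorem result {T : Type u} [Category.{v} T] [Preadditive T] [HasZeroObject T] [HasShift T ℤ]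
    [∀ n : ℤ, (shiftFunctor T n).Additive] [Pretriangulated T] [IsTriangulated T]
    [HasCoproducts.{v} T] [MonoidalCategory T] [SymmetricCategory T] [MonoidalClosed T]
    [MonoidalPreadditive T] [∀ X : T, (tensorLeft X).CommShift ℤ]
    [∀ X : T, (tensorLeft X).IsTriangulated]
    (hT : IsRigidlyCompactlyGenerated T) (hw : IsWeaklyNoetherian T)
    (g : Spc T → T) (hg : ∀ P : Spc T, IsPointObj P (g P)) (hs : IsStratified g) :
    IsCostratified g :=
  (main_result hT hw).2 g hg hs

end Pool.Agent.Results.MP_320227_al.StratImpliesCostrat
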